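import Pool.Agent.X26.LF.Stm

/-! Project LF (MP_07add5_co), part SIZ. -/

set_option autoImplicit false

namespace Pool.Agent.X82.LF

open Finset Pool.Agent.X26.LF Filter

theorem ev_log (D k : ℕ) : ∃ P : ℕ, ∀ p : ℕ, P ≤ p → D * (Nat.log 2 p + 2) ^ k ≤ p := by
  have h := tendsto_pow_const_div_const_pow_of_one_lt k (r := (2 : ℝ)) one_lt_two
  have hpos : (0 : ℝ) < 1 / (4 * D + 1) := by positivity
  have h2 := (h.eventually (gt_mem_nhds hpos))
  obtain ⟨n0, hn0⟩ := eventually_atTop.1 h2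
  refine ⟨2 ^ n0, fun p hp => ?_⟩
  have hp0 : p ≠ 0 := by
    have : 0 < 2 ^ n0 := by positivity
    omega
  have hl : n0 ≤ Nat.log 2 p := (Nat.le_log_iff_pow_le one_lt_two hp0).2 hp
  set l := Nat.log 2 p with hl'
  have h3 := hn0 (l + 2) (by omega)
  have h4 : (0 : ℝ) < 2 ^ (l + 2) := by positivity
  rw [div_lt_div_iff₀ h4 (by positivity)] at h3
  have h5 : ((l + 2) ^ k * (4 * D + 1) : ℕ) < 1 * 2 ^ (l + 2) := by exact_mod_cast h3
  have h6 : 2 ^ l ≤ p := Nat.pow_log_le_self 2 hp0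
  have h7 : 2 ^ (l + 2) = 4 * 2 ^ l := by rw [pow_add]; ring
  have h8 : (l + 2) ^ k * (4 * D + 1) = 4 * (D * (l + 2) ^ k) + (l + 2) ^ k := by ring
  rw [h7, h8] at h5
  omega

theorem t_SIZ : S_SIZ := by
  classical
  intro m C hm
  obtain ⟨P, hP⟩ := ev_log (C ^ m * ((m + 2) ^ m * (C + 1)) ^ (2 * m - 1)) (m * (2 * m - 1))
  refine ⟨P + 1, fun p hp => ?_⟩
  have hm0 : m ≠ 0 := by omega
  have hex : ∃ r : ℕ, C * p ≤ r ^ m := ⟨C * p, by
    rcases Nat.eq_zero_or_pos (C * p) with h | h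
    · rw [h]; exact Nat.zero_le _
    · exact Nat.le_self_pow hm0 _⟩
  set r := Nat.find hex with hr
  have hr1 : C * p ≤ r ^ m := Nat.find_spec hex
  refine ⟨r + m, ?_, ?_⟩
  · refine hr1.trans (le_trans ?_ (Nat.pow_sub_le_descFactorial (r + m) m))
    exact Nat.pow_le_pow_left (by omega) m
  · have hN : (r + m) ^ m ≤ (m + 2) ^ m * ((C + 1) * p) := by
      rcases Nat.lt_or_ge r 2 with h | h
      · have h1 : (r + m) ^ m ≤ (m + 2) ^ m := Nat.pow_le_pow_left (by omega) m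
        refine h1.trans (Nat.le_mul_of_pos_right _ ?_)
        exact Nat.mul_pos (by omega) (by omega)
      · have h1 : (r - 1) ^ m < C * p := by
          have := Nat.find_min hex (m := r - 1) (by omega)
          omega
        have h2 : r + m ≤ (m + 2) * (r - 1) := by
          obtain ⟨q, rfl⟩ : ∃ q, m = q + 2 := ⟨m - 2, by omega⟩
          obtain ⟨t, ht⟩ : ∃ t, r = t + 2 := ⟨r - 2, by omega⟩
          rw [ht]
          have : t + 2 - 1 = t + 1 := by omega
          rw [this]; nlinarith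
        calc (r + m) ^ m ≤ ((m + 2) * (r - 1)) ^ m := Nat.pow_le_pow_left h2 m
          _ = (m + 2) ^ m * (r - 1) ^ m := by rw [mul_pow]
          _ ≤ (m + 2) ^ m * ((C + 1) * p) := Nat.mul_le_mul_left _ (by nlinarith)
    have hL := hP p (by omega)
    set L := Nat.log 2 p + 2 with hLdef
    refine (Nat.pow_le_pow_iff_left hm0).1 ?_
    calc (C * (L * (r + m)) ^ (2 * m - 1)) ^ m
        = C ^ m * L ^ (m * (2 * m - 1)) * ((r + m) ^ m) ^ (2 * m - 1) := by
          rw [mul_pow, ← pow_mul, mul_pow L, ← pow_mul, mul_comm (2 * m - 1) m, mul_assoc]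
      _ ≤ C ^ m * L ^ (m * (2 * m - 1)) * ((m + 2) ^ m * ((C + 1) * p)) ^ (2 * m - 1) :=
          Nat.mul_le_mul_left _ (Nat.pow_le_pow_left hN _)
      _ = (C ^ m * ((m + 2) ^ m * (C + 1)) ^ (2 * m - 1) * L ^ (m * (2 * m - 1))) *
          p ^ (2 * m - 1) := by
          rw [← mul_assoc ((m + 2) ^ m), mul_pow _ p]; ring
      _ ≤ p * p ^ (2 * m - 1) := Nat.mul_le_mul_right _ hL
      _ = (p ^ 2) ^ m := by
          rw [← pow_succ', ← pow_mul]; congr 1; omega

end Pool.Agent.X82.LF
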