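import Pool.Agent.X26.LF.Stm

/-! Project LF (MP_07add5_co), part STG. -/

set_option autoImplicit false

namespace Pool.Agent.X82.LF

open Finset Pool.Agent.X26.LF

theorem t_STG : S_STG := by
  classical
  intro hSM hBAD hCNT m p N _ u v A U hm hNP hA h1 h2
  let X : (Fin N → ZMod p) → Finset (ZMod p) := fun x =>
    (univ.filter fun i => ¬ Bad v p A x i).image x
  have hX : ∀ x, (X x).card ≤ N := by
    intro x
    refine card_image_le.trans ((card_filter_le _ _).trans ?_)
    simp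
  have hfree : ∀ x, Free v p (A ∪ X x) := by
    intro x K a ha hsum
    have hκ : ∀ k, ∃ i : Option (Fin N), k ∈ K → a k ∉ A →
        ∃ j, i = some j ∧ ¬ Bad v p A x j ∧ x j = a k := by
      intro k
      by_cases hk : k ∈ K ∧ a k ∉ A
      · have := ha k hk.1
        rcases mem_union.1 this with h | h
        · exact absurd h hk.2
        · obtain ⟨j, hj, hja⟩ := mem_image.1 h
          exact ⟨some j, fun _ _ => ⟨j, rfl, (mem_filter.1 hj).2, hja⟩⟩
      · exact ⟨none, fun h h' => absurd ⟨h, h'⟩ hk⟩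
    set L : Finset (Fin m) := K.filter fun k => a k ∉ A with hL
    by_cases hLe : L = ∅
    · refine hA K a (fun k hk => ?_) hsum
      by_contra hka
      have : k ∈ L := mem_filter.2 ⟨hk, hka⟩
      rw [hLe] at this
      exact absurd this (notMem_empty k)
    · obtain ⟨k0, hk0⟩ := nonempty_iff_ne_empty.2 hLe
      choose κ' hκ' using hκ
      obtain ⟨j0, hj0, hj0b, hj0x⟩ := hκ' k0 (mem_filter.1 hk0).1 (mem_filter.1 hk0).2
      apply hj0b
      refine ⟨K \ L, L, a, fun k => (κ' k).getD j0, sdiff_disjoint, ?_, ⟨k0, hk0, by simp [hj0]⟩, ?_⟩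
      · intro k hk
        by_contra hka
        exact (mem_sdiff.1 hk).2 (mem_filter.2 ⟨(mem_sdiff.1 hk).1, hka⟩)
      · rw [← hsum, ← sum_sdiff (filter_subset (fun k => a k ∉ A) K)]
        congr 1
        refine sum_congr rfl fun k hk => ?_
        obtain ⟨j, hj, _, hjx⟩ := hκ' k (mem_filter.1 hk).1 (mem_filter.1 hk).2
        simp only [hj, Option.getD_some, hjx]
  have hcov : ∀ x s, ¬ Cov u p (X x) s →
      (¬ ∃ ι : Fin m ↪ Fin N, ∑ j, (u j : ZMod p) * x (ι j) = s) ∨
      (∃ ι : Fin m ↪ Fin N, ∑ j, (u j : ZMod p) * x (ι j) = s ∧ ∃ j, Bad v p A x (ι j)) := by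
    intro x s hs
    by_cases h : ∃ ι : Fin m ↪ Fin N, ∑ j, (u j : ZMod p) * x (ι j) = s
    · right
      obtain ⟨ι, hι⟩ := h
      refine ⟨ι, hι, ?_⟩
      by_contra hb
      push Not at hb
      exact hs ⟨fun j => x (ι j), fun j => mem_image.2 ⟨ι j, mem_filter.2 ⟨mem_univ _, hb j⟩, rfl⟩, hι⟩
    · exact Or.inl h
  have hp0 : 0 < p := (Fact.out : p.Prime).pos
  have hcount : ∀ s, 4 * (univ.filter fun x : Fin N → ZMod p => ¬ Cov u p (X x) s).card ≤ p ^ N := by
    intro s
    have e1 := hSM m p N (fun i => (u i : ZMod p)) s hm hNP.1 h1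
    have e2 := hBAD hCNT m p N u v A s hm hNP hA
    have e3 : 8 * (univ.filter fun x : Fin N → ZMod p => ∃ ι : Fin m ↪ Fin N,
        ∑ j, (u j : ZMod p) * x (ι j) = s ∧ ∃ j, Bad v p A x (ι j)).card ≤ p ^ N := by
      have hp2 : 0 < p ^ 2 := by positivity
      refine Nat.le_of_mul_le_mul_left ?_ hp2
      calc p ^ 2 * (8 * (univ.filter fun x : Fin N → ZMod p => ∃ ι : Fin m ↪ Fin N,
            ∑ j, (u j : ZMod p) * x (ι j) = s ∧ ∃ j, Bad v p A x (ι j)).card)
          = 8 * (p ^ 2 * (univ.filter fun x : Fin N → ZMod p => ∃ ι : Fin m ↪ Fin N,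
            ∑ j, (u j : ZMod p) * x (ι j) = s ∧ ∃ j, Bad v p A x (ι j)).card) := by ring
        _ ≤ 8 * (m ^ 2 * 4 ^ m * (A.card + N) ^ (2 * m - 1) * p ^ N) := Nat.mul_le_mul_left _ e2
        _ = 8 * (m ^ 2 * 4 ^ m * (A.card + N) ^ (2 * m - 1)) * p ^ N := by ring
        _ ≤ p ^ 2 * p ^ N := Nat.mul_le_mul_right _ h2
    have e4 : (univ.filter fun x : Fin N → ZMod p => ¬ Cov u p (X x) s).card ≤
        (univ.filter fun x : Fin N → ZMod p =>
          ¬ ∃ ι : Fin m ↪ Fin N, ∑ j, (u j : ZMod p) * x (ι j) = s).card +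
        (univ.filter fun x : Fin N → ZMod p => ∃ ι : Fin m ↪ Fin N,
            ∑ j, (u j : ZMod p) * x (ι j) = s ∧ ∃ j, Bad v p A x (ι j)).card := by
      refine le_trans (card_le_card ?_) (card_union_le _ _)
      intro x hx
      rcases hcov x s (mem_filter.1 hx).2 with h | h
      · exact mem_union_left _ (mem_filter.2 ⟨mem_univ _, h⟩)
      · exact mem_union_right _ (mem_filter.2 ⟨mem_univ _, h⟩)
    omega
  by_contra hno
  push Not at hno
  have hbig : ∀ x, U.card < 2 * (U.filter fun s => ¬ Cov u p (X x) s).card := fun x =>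
    hno (X x) (hX x) (hfree x)
  have hswap : ∑ x : Fin N → ZMod p, (U.filter fun s => ¬ Cov u p (X x) s).card =
      ∑ s ∈ U, (univ.filter fun x : Fin N → ZMod p => ¬ Cov u p (X x) s).card := by
    simp only [card_filter]
    exact sum_comm
  have hcard : (univ : Finset (Fin N → ZMod p)).card = p ^ N := by
    rw [card_univ, Fintype.card_fun, ZMod.card, Fintype.card_fin]
  have g1 : 4 * ∑ x : Fin N → ZMod p, (U.filter fun s => ¬ Cov u p (X x) s).card ≤ U.card * p ^ N := by
    rw [hswap, mul_sum]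
    refine (sum_le_sum fun s _ => hcount s).trans ?_
    rw [sum_const, smul_eq_mul]
  have g2 : p ^ N * (U.card + 1) ≤
      2 * ∑ x : Fin N → ZMod p, (U.filter fun s => ¬ Cov u p (X x) s).card := by
    rw [mul_sum, ← hcard, ← smul_eq_mul, ← sum_const]
    exact sum_le_sum fun x _ => hbig x
  have g3 : 0 < p ^ N := by positivity
  nlinarith
end Pool.Agent.X82.LF
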